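import Pool.Agent.Helper34.Nt.Main2

set_option autoImplicit false

namespace Pool.Agent.Results.MP_25e49d_an.Golden

/-- If `√5 - 2 ≤ α < 1`, then `Var (M^α f) ≤ Var f` for every `f : ℝ → ℝ` of bounded
variation. -/
theorem result :
    ∀ α : ℝ, Real.sqrt 5 - 2 ≤ α → α < 1 →
      ∀ f : ℝ → ℝ, BoundedVariationOn f Set.univ →
        eVariationOn
          (fun x : ℝ => sSup {v : ℝ | ∃ y t : ℝ, 0 < t ∧ |x - y| ≤ α * t ∧
              v = (2 * t)⁻¹ * ∫ s in (y - t)..(y + t), |f s|})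
          Set.univ
        ≤ eVariationOn f Set.univ := by
  intro α h0 h1 f hf
  have h5 : (0 : ℝ) ≤ 5 := by norm_num
  have hs : Real.sqrt 5 ^ 2 = 5 := Real.sq_sqrt h5
  have hs2 : 2 < Real.sqrt 5 := by
    rw [Real.lt_sqrt (by norm_num)]; norm_num
  have hK : 1 ≤ α ^ 2 + 4 * α := by nlinarith
  exact Pool.Agent.Helper34.Nt.main_gold (by linarith) h1 hK f hf

end Pool.Agent.Results.MP_25e49d_an.Golden
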