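import Pool.Agent.Helper34.Nt.Main

set_option autoImplicit false

namespace Pool.Agent.Results.MP_25e49d_an.Threshold

/-- If `0 < α < 1` and `α³ - 9α² - α + 1 ≤ 0` (that is `0.28620826... ≤ α < 1`), then
`Var (M^α f) ≤ Var f` for every `f : ℝ → ℝ` of bounded variation. -/
theorem result :
    ∀ α : ℝ, 0 < α → α < 1 → α ^ 3 - 9 * α ^ 2 - α + 1 ≤ 0 →
      ∀ f : ℝ → ℝ, BoundedVariationOn f Set.univ →
        eVariationOn
          (fun x : ℝ => sSup {v : ℝ | ∃ y t : ℝ, 0 < t ∧ |x - y| ≤ α * t ∧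
              v = (2 * t)⁻¹ * ∫ s in (y - t)..(y + t), |f s|})
          Set.univ
        ≤ eVariationOn f Set.univ :=
  fun _ h0 h1 hc f hf => Pool.Agent.Helper34.Nt.main h0 h1 hc f hf

end Pool.Agent.Results.MP_25e49d_an.Threshold
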